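import Mathlib
import Pool.Agent.Helper509.RD.Cop
import Pool.Agent.H832R2.Tors

/-!
Torsion and centralizers in free products, in terms of normal forms.
-/

namespace Pool.Agent.H849R3

open Monoid Pool.Agent.Helper509.RD.CP

set_option linter.unusedSectionVars false

section

variable {ι : Type} [DecidableEq ι] {M : ι → Type} [∀ i, Group (M i)]

theorem pr_replicate_ne (n : ℕ) (s t : Σ i, M i) (L : List (Σ i, M i))
    (hred : ∀ s' ∈ (s :: t :: L), Sigma.snd s' ≠ 1)
    (hch : (s :: t :: L).IsChain (fun s t => Sigma.fst s ≠ Sigma.fst t))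
    (hlast : ∀ u ∈ (s :: t :: L).getLast?, Sigma.fst u ≠ Sigma.fst s) (hn : 0 < n) :
    Pool.Agent.H832R2.pr (s :: t :: L) ^ n ≠ 1 := by
  have key : ∀ n : ℕ, 0 < n → ∃ L' : List (Σ i, M i), (∀ s' ∈ L', Sigma.snd s' ≠ 1) ∧
      L'.IsChain (fun s t => Sigma.fst s ≠ Sigma.fst t) ∧ L' ≠ [] ∧
      (∀ u ∈ L'.head?, Sigma.fst u = Sigma.fst s) ∧
      Pool.Agent.H832R2.pr L' = Pool.Agent.H832R2.pr (s :: t :: L) ^ n := by
    intro n hn
    induction n with
    | zero => omega
    | succ n ih =>
      rcases Nat.eq_zero_or_pos n with h | h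
      · subst h
        refine ⟨s :: t :: L, hred, hch, by simp, ?_, by simp⟩
        intro u hu
        simp only [List.head?_cons, Option.mem_def, Option.some.injEq] at hu
        rw [hu]
      · obtain ⟨L', h1, h2, h3, h4, h5⟩ := ih h
        refine ⟨(s :: t :: L) ++ L', ?_, ?_, by simp, ?_, ?_⟩
        · intro x hx
          rcases List.mem_append.1 hx with h | h
          · exact hred x h
          · exact h1 x h
        · rw [List.isChain_append]
          refine ⟨hch, h2, ?_⟩
          intro x hx y hy
          rw [h4 y hy]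
          exact hlast x hx
        · intro u hu
          simp only [List.cons_append, List.head?_cons, Option.mem_def, Option.some.injEq] at hu
          rw [hu]
        · rw [Pool.Agent.H832R2.pr_append, h5, pow_succ']
  obtain ⟨L', h1, h2, h3, _, h5⟩ := key n hn
  rw [← h5]
  exact Pool.Agent.H832R2.pr_ne_one L' h1 h2 h3

/-- Elements of finite order in a free product are conjugate into a factor. -/
theorem exists_conj_of_pow (z : CoprodI M) (n : ℕ) (hn : 0 < n) (hz : z ^ n = 1) (hne : z ≠ 1) :
    ∃ (c : CoprodI M) (i : ι) (m : M i), z = c * CoprodI.of m * c⁻¹ := by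
  classical
  have hex : ∃ n, ∃ (c : CoprodI M) (L : List (Σ i, M i)), L.length = n ∧
      Pool.Agent.H832R2.pr L = c⁻¹ * z * c := by
    obtain ⟨L, hL⟩ := Pool.Agent.H832R2.exists_pr z
    exact ⟨L.length, 1, L, rfl, by simp [hL]⟩
  obtain ⟨c, L, hn', hL⟩ := Nat.find_spec hex
  have hmin : ∀ (c : CoprodI M) (L' : List (Σ i, M i)),
      Pool.Agent.H832R2.pr L' = c⁻¹ * z * c → L.length ≤ L'.length := by
    intro c L' h
    rw [hn']
    exact Nat.find_min' hex ⟨c, L', rfl, h⟩
  have hne' : Pool.Agent.H832R2.pr L ≠ 1 := by
    rw [hL]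
    intro h
    apply hne
    have : z = c * (c⁻¹ * z * c) * c⁻¹ := by group
    rw [this, h]; group
  rcases L with _ | ⟨s, L⟩
  · exact absurd rfl hne'
  rcases L with _ | ⟨t, L⟩
  · refine ⟨c, s.1, s.2, ?_⟩
    have : CoprodI.of s.2 = c⁻¹ * z * c := by
      rw [← hL, Pool.Agent.H832R2.pr_cons, Pool.Agent.H832R2.pr_nil, mul_one]
    rw [this]; group
  exfalso
  have hred : ∀ s' ∈ (s :: t :: L), Sigma.snd s' ≠ 1 := by
    intro s' hs' h1
    obtain ⟨L1, L2, h2⟩ := List.append_of_mem hs'
    have := hmin c (L1 ++ L2) (by
      rw [← hL, h2, Pool.Agent.H832R2.pr_append, Pool.Agent.H832R2.pr_append,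
        Pool.Agent.H832R2.pr_cons, h1, map_one, one_mul])
    rw [h2] at this
    simp only [List.length_append, List.length_cons] at this
    omega
  have hch : (s :: t :: L).IsChain (fun s t => Sigma.fst s ≠ Sigma.fst t) := by
    by_contra hc
    obtain ⟨L1, a, b, L2, h1, h2⟩ := Pool.Agent.H832R2.not_chain _ hc
    obtain ⟨i, a⟩ := a
    obtain ⟨j, b⟩ := b
    simp only [ne_eq, not_not] at h2
    subst h2
    have := hmin c (L1 ++ ⟨i, a * b⟩ :: L2) (by
      rw [← hL, h1, Pool.Agent.H832R2.pr_append, Pool.Agent.H832R2.pr_append,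
        Pool.Agent.H832R2.pr_cons, Pool.Agent.H832R2.pr_cons, Pool.Agent.H832R2.pr_cons,
        ← mul_assoc (CoprodI.of _), ← map_mul])
    rw [h1] at this
    simp only [List.length_append, List.length_cons] at this
    omega
  obtain ⟨N, u, hN⟩ : ∃ N u, t :: L = N ++ [u] :=
    ⟨(t :: L).dropLast, (t :: L).getLast (by simp), (List.dropLast_append_getLast (by simp)).symm⟩
  have hsu : u.1 ≠ s.1 := by
    obtain ⟨i, u⟩ := u
    obtain ⟨j, s⟩ := s
    intro h
    simp only at h
    subst h
    have := hmin (c * CoprodI.of s) (N ++ [⟨i, u * s⟩]) (by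
      have e1 : Pool.Agent.H832R2.pr (⟨i, s⟩ :: t :: L) =
          CoprodI.of s * (Pool.Agent.H832R2.pr N * CoprodI.of u) := by
        rw [Pool.Agent.H832R2.pr_cons, hN, Pool.Agent.H832R2.pr_append,
          Pool.Agent.H832R2.pr_cons, Pool.Agent.H832R2.pr_nil, mul_one]
      rw [hL] at e1
      rw [Pool.Agent.H832R2.pr_append, Pool.Agent.H832R2.pr_cons, Pool.Agent.H832R2.pr_nil,
        mul_one, map_mul]
      have e2 : (c * CoprodI.of s)⁻¹ * z * (c * CoprodI.of s) =
        (CoprodI.of s)⁻¹ * (c⁻¹ * z * c) * CoprodI.of s := by group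
      rw [e2, e1]
      group)
    rw [hN] at this
    simp only [List.length_append, List.length_cons] at this
    omega
  refine pr_replicate_ne n s t L hred hch ?_ hn ?_
  · intro x hx
    rw [hN] at hx
    have : (s :: (N ++ [u])).getLast? = some u := by
      rw [← List.cons_append, List.getLast?_append]
      simp
    rw [this] at hx
    rw [← Option.some.inj hx]
    exact hsu
  · rw [hL]
    have : (c⁻¹ * z * c) ^ n = c⁻¹ * z ^ n * c := by
      have := conj_pow (i := n) (a := c⁻¹) (b := z)
      rwa [inv_inv] at this
    rw [this, hz]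
    group

variable [∀ i, DecidableEq (M i)]

/-- An element which conjugates a nontrivial element of a factor into that factor lies in it. -/
theorem mem_range_of_conj (k : CoprodI M) (i : ι) (m m' : M i) (hm : m ≠ 1) (hm' : m' ≠ 1)
    (h : k * CoprodI.of m = CoprodI.of m' * k) : ∃ n : M i, k = CoprodI.of n := by
  -- reduce to words not starting with `i`
  have main : ∀ (L : List (Σ i, M i)), Red L → (∀ x ∈ L.head?, x.1 ≠ i) → ∀ q : M i, q ≠ 1 →
      prodL L * CoprodI.of m = CoprodI.of q * prodL L → L = [] := by
    intro L hL hhead q hq hLq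
    by_contra hne
    obtain ⟨N, u, hN⟩ : ∃ N u, L = N ++ [u] :=
      ⟨L.dropLast, L.getLast hne, (List.dropLast_append_getLast hne).symm⟩
    have hR : nf (CoprodI.of q * prodL L) = ⟨i, q⟩ :: L := by
      have : Red ((⟨i, q⟩ : Σ i, M i) :: L) := by
        refine ⟨?_, ?_⟩
        · intro s hs
          rcases List.mem_cons.1 hs with h | h
          · subst h; exact hq
          · exact hL.1 s h
        · rw [List.isChain_cons]
          exact ⟨fun y hy => (hhead y hy).symm, hL.2⟩
      have h2 := nf_prodL this
      simpa using h2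
    obtain ⟨j, u⟩ := u
    by_cases hij : j = i
    · subst hij
      have hlen : (nf (prodL L * CoprodI.of m)).length ≤ L.length := by
        by_cases hum : u * m = 1
        · have : prodL L * CoprodI.of m = prodL N := by
            rw [hN]
            simp only [prodL_append, prodL_cons, prodL_nil, mul_one, mul_assoc]
            rw [← map_mul, hum, map_one, mul_one]
          rw [this, nf_prodL (by rw [hN] at hL; exact hL.left), hN]
          simp
        · have h3 : prodL L * CoprodI.of m = prodL (N ++ [⟨j, u * m⟩]) := by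
            rw [hN]
            simp only [prodL_append, prodL_cons, prodL_nil, mul_one, mul_assoc, map_mul]
          have h4 : Red (N ++ [(⟨j, u * m⟩ : Σ i, M i)]) := by
            rw [hN] at hL
            refine ⟨?_, ?_⟩
            · intro s hs
              rcases List.mem_append.1 hs with h | h
              · exact hL.1 s (List.mem_append_left _ h)
              · rw [List.mem_singleton] at h
                subst h; exact hum
            · have h5 := hL.2
              rw [List.isChain_append] at h5 ⊢
              refine ⟨h5.1, List.isChain_singleton _, ?_⟩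
              intro x hx y hy
              have h6 := h5.2.2 x hx ⟨j, u⟩ (by simp)
              simp only [List.head?_cons, Option.mem_def, Option.some.injEq] at hy
              rw [← hy]
              exact h6
          rw [h3, nf_prodL h4, hN]
          simp
      rw [hLq, hR] at hlen
      simp at hlen
    · have h4 : Red (L ++ [(⟨i, m⟩ : Σ i, M i)]) := by
        refine ⟨?_, ?_⟩
        · intro s hs
          rcases List.mem_append.1 hs with h | h
          · exact hL.1 s h
          · rw [List.mem_singleton] at h
            subst h; exact hm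
        · rw [List.isChain_append]
          refine ⟨hL.2, List.isChain_singleton _, ?_⟩
          intro x hx y hy
          rw [hN] at hx
          simp only [List.getLast?_append, List.getLast?_singleton, Option.mem_def,
            Option.some.injEq, List.head?_cons, Option.some_or] at hx hy
          rw [← hx, ← hy]
          exact hij
      have h3 : nf (prodL L * CoprodI.of m) = L ++ [⟨i, m⟩] := by
        have h5 := nf_prodL h4
        simpa using h5
      rw [hLq, hR] at h3
      rcases L with _ | ⟨x, L⟩
      · exact hne rfl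
      · rw [List.cons_append] at h3
        have h6 := (List.cons.inj h3).1
        exact hhead x (by simp) (by rw [← h6])
  -- write `k = of n * k'`
  obtain ⟨n, L, hk, hL, hhead⟩ : ∃ (n : M i) (L : List (Σ i, M i)),
      k = CoprodI.of n * prodL L ∧ Red L ∧ ∀ x ∈ L.head?, x.1 ≠ i := by
    rcases hL : nf k with _ | ⟨⟨j, x⟩, L⟩
    · refine ⟨1, [], ?_, ⟨by simp, by simp⟩, by simp⟩
      rw [← prodL_nf k, hL]; simp
    · have hR : Red ((⟨j, x⟩ : Σ i, M i) :: L) := by rw [← hL]; exact nf_red k
      by_cases hji : j = i
      · subst hji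
        refine ⟨x, L, ?_, hR.tail, ?_⟩
        · rw [← prodL_nf k, hL]; simp
        · have := hR.2
          rw [List.isChain_cons] at this
          intro y hy
          exact (this.1 y hy).symm
      · refine ⟨1, ⟨j, x⟩ :: L, ?_, hR, ?_⟩
        · rw [← prodL_nf k, hL]; simp
        · intro y hy
          simp only [List.head?_cons, Option.mem_def, Option.some.injEq] at hy
          rw [← hy]; exact hji
  have h2 : prodL L * CoprodI.of m = CoprodI.of (n⁻¹ * m' * n) * prodL L := by
    rw [hk] at h
    rw [map_mul, map_mul, map_inv]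
    calc prodL L * CoprodI.of m = (CoprodI.of n)⁻¹ * (CoprodI.of n * prodL L * CoprodI.of m) := by
          group
      _ = _ := by rw [h]; group
  have h3 := main L hL hhead (n⁻¹ * m' * n) (by
    intro h4
    apply hm'
    have : m' = n * (n⁻¹ * m' * n) * n⁻¹ := by group
    rw [this, h4]; group) h2
  exact ⟨n, by rw [hk, h3]; simp⟩

end

end Pool.Agent.H849R3
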