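import Mathlib
import Pool.Agent.H849R3.Free

/-!
The group `(C₃ * C₅) ⋊ C₂ = S₃ *_{C₂} D₅`: it is co-hopfian, its subgroup `C₃ * C₅` is not.
-/

namespace Pool.Agent.H849R3

open Monoid Pool.Agent.Helper509.RD.CP

/-- orders of the two factors -/
def nn (b : Bool) : ℕ := if b then 5 else 3

/-- the two factors -/
abbrev MM (b : Bool) : Type := Multiplicative (ZMod (nn b))

/-- the free product `C₃ * C₅` -/
abbrev KK : Type := CoprodI MM

instance (b : Bool) : NeZero (nn b) := ⟨by cases b <;> simp [nn]⟩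

theorem nn_prime (b : Bool) : (nn b).Prime := by cases b <;> norm_num [nn]

theorem MM_pow {b : Bool} (x : MM b) : x ^ nn b = 1 := by
  apply Multiplicative.toAdd.injective
  rw [toAdd_pow, toAdd_one, nsmul_eq_mul, ZMod.natCast_self, zero_mul]

theorem MM_half {b : Bool} (x : MM b) : ∃ y : MM b, y * y = x := by
  have h := MM_pow x
  cases b
  · refine ⟨x ^ 2, ?_⟩
    have h' : x ^ 3 = 1 := h
    calc x ^ 2 * x ^ 2 = x ^ 3 * x := by rw [← pow_add, ← pow_succ]
      _ = x := by rw [h', one_mul]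
  · refine ⟨x ^ 3, ?_⟩
    have h' : x ^ 5 = 1 := h
    calc x ^ 3 * x ^ 3 = x ^ 5 * x := by rw [← pow_add, ← pow_succ]
      _ = x := by rw [h', one_mul]

theorem MM_sq {b : Bool} (x : MM b) (h2 : x ^ 2 = 1) : x = 1 := by
  have h := MM_pow x
  cases b
  · have h' : x ^ 3 = 1 := h
    calc x = x ^ 3 * (x ^ 2)⁻¹ := by group
      _ = 1 := by rw [h', h2]; simp
  · have h' : x ^ 5 = 1 := h
    calc x = x ^ 5 * ((x ^ 2) ^ 2)⁻¹ := by group
      _ = 1 := by rw [h', h2]; simp

theorem MM_other {b : Bool} (x : MM (!b)) (h2 : x ^ nn b = 1) : x = 1 := by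
  have h := MM_pow x
  cases b
  · have h' : x ^ 5 = 1 := h
    have h3 : x ^ 3 = 1 := h2
    calc x = (x ^ 3) ^ 2 * (x ^ 5)⁻¹ := by group
      _ = 1 := by rw [h', h3]; simp
  · have h' : x ^ 3 = 1 := h
    have h3 : x ^ 5 = 1 := h2
    calc x = (x ^ 3) ^ 2 * (x ^ 5)⁻¹ := by group
      _ = 1 := by rw [h', h3]; simp

theorem MM_gen {b : Bool} (m : MM b) (hm : m ≠ 1) (x : MM b) : ∃ k : ℤ, m ^ k = x := by
  have : Fact (nn b).Prime := ⟨nn_prime b⟩
  have hc : Nat.card (MM b) = nn b := by
    simp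
  exact Subgroup.mem_zpowers_iff.1 (mem_zpowers_of_prime_card hc hm)

/-- the inversion of both factors -/
def sg : KK →* KK := CoprodI.lift fun _ => CoprodI.of.comp invMonoidHom

theorem of_inv {b : Bool} (m : MM b) : (CoprodI.of m⁻¹ : KK) = (CoprodI.of m)⁻¹ :=
  map_inv (CoprodI.of : MM b →* KK) m

theorem of_mul {b : Bool} (m m' : MM b) : (CoprodI.of (m * m') : KK) = CoprodI.of m * CoprodI.of m' :=
  map_mul (CoprodI.of : MM b →* KK) m m'

theorem sg_of (b : Bool) (m : MM b) : sg (CoprodI.of m) = CoprodI.of m⁻¹ := by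
  simp [sg]

theorem sg_sg : sg.comp sg = MonoidHom.id KK := by
  apply CoprodI.ext_hom
  intro b
  ext m
  simp [sg_of]

/-- the inversion as an automorphism -/
def sA : MulAut KK := MonoidHom.toMulEquiv sg sg sg_sg sg_sg

theorem sA_apply (x : KK) : sA x = sg x := rfl

theorem sA_sq : sA ^ 2 = 1 := by
  ext x
  rw [pow_two, MulAut.mul_apply, sA_apply, sA_apply]
  exact DFunLike.congr_fun sg_sg x

theorem sA_sg_fix (h : KK) (hh : sg h = h) : h = 1 := by
  have h1 : nf (sg h) = (nf h).map (fun s => ⟨s.1, s.2⁻¹⟩) := by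
    apply nf_map sg (fun s => ⟨s.1, s.2⁻¹⟩)
    · intro s hs
      simpa using hs
    · intro s s' hs
      exact hs
    · intro s
      exact sg_of _ _
  rw [hh] at h1
  have h2 : nf h = [] := by
    have hR := nf_red h
    rcases hL : nf h with _ | ⟨⟨j, x⟩, L⟩
    · rfl
    · exfalso
      rw [hL] at h1 hR
      simp only [List.map_cons, List.cons.injEq, Sigma.mk.injEq, heq_eq_eq, true_and] at h1
      refine hR.1 ⟨j, x⟩ (by simp) (MM_sq x ?_)
      rw [pow_two]
      nth_rewrite 1 [h1.1]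
      simp
  rw [← prodL_nf h, h2]
  rfl

/-- the generators of the factors -/
def gg (b : Bool) : MM b := Multiplicative.ofAdd 1

theorem gg_ne (b : Bool) : gg b ≠ 1 := by
  intro h
  have : Fact (1 < nn b) := ⟨(nn_prime b).one_lt⟩
  have h4 : (1 : ZMod (nn b)) = 0 := h
  exact one_ne_zero h4

theorem sA_ne : sA ≠ 1 := by
  intro h
  have h1 : sg (CoprodI.of (gg false)) = CoprodI.of (gg false) := by
    rw [← sA_apply, h]; rfl
  have h2 := sA_sg_fix _ h1
  rw [← map_one (CoprodI.of : MM false →* KK)] at h2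
  exact gg_ne false (CoprodI.of_injective (M := MM) false h2)

/-- the group of order two generated by the inversion -/
abbrev SS : Subgroup (MulAut KK) := Subgroup.zpowers sA

theorem SS_cases (s : SS) : s = 1 ∨ s = ⟨sA, Subgroup.mem_zpowers sA⟩ := by
  obtain ⟨s, hs⟩ := s
  obtain ⟨k, hk⟩ := Subgroup.mem_zpowers_iff.1 hs
  rcases Int.even_or_odd k with ⟨j, hj⟩ | ⟨j, hj⟩
  · left
    apply Subtype.ext
    change s = 1
    rw [← hk, hj, ← two_mul, zpow_mul]
    have : sA ^ (2 : ℤ) = 1 := by exact_mod_cast sA_sq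
    rw [this, one_zpow]
  · right
    apply Subtype.ext
    change s = sA
    rw [← hk, hj, zpow_add, zpow_mul]
    have : sA ^ (2 : ℤ) = 1 := by exact_mod_cast sA_sq
    rw [this, one_zpow, one_mul, zpow_one]

theorem card_SS : Nat.card SS = 2 := by
  rw [Nat.card_zpowers]
  exact orderOf_eq_prime sA_sq sA_ne

/-- the group `(C₃ * C₅) ⋊ C₂` -/
abbrev GG : Type := KK ⋊[SS.subtype] SS

/-- the involution -/
def ss : GG := SemidirectProduct.inr ⟨sA, Subgroup.mem_zpowers sA⟩

theorem ss_ne : ss ≠ 1 := by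
  intro h
  have := congrArg SemidirectProduct.right h
  exact sA_ne (congrArg Subtype.val this)

theorem ss_inv : ss⁻¹ = ss := by
  unfold ss
  rw [← map_inv]
  congr 1

theorem ss_sq : ss * ss = 1 := by
  nth_rewrite 1 [← ss_inv]
  simp

theorem ss_conj (k : KK) : ss * SemidirectProduct.inl k * ss = SemidirectProduct.inl (sg k) := by
  have := SemidirectProduct.inl_aut (φ := SS.subtype) ⟨sA, Subgroup.mem_zpowers sA⟩ k
  have h2 : (SS.subtype ⟨sA, Subgroup.mem_zpowers sA⟩) k = sg k := rfl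
  rw [h2, map_inv] at this
  rw [this]
  nth_rewrite 2 [← ss_inv]
  rfl

theorem GG_cases (g : GG) : (∃ k : KK, g = SemidirectProduct.inl k) ∨
    ∃ k : KK, g = SemidirectProduct.inl k * ss := by
  rcases SS_cases g.right with h | h
  · left
    refine ⟨g.left, ?_⟩
    conv_lhs => rw [← SemidirectProduct.inl_left_mul_inr_right g, h, map_one, mul_one]
  · right
    refine ⟨g.left, ?_⟩
    conv_lhs => rw [← SemidirectProduct.inl_left_mul_inr_right g, h]
    rfl

theorem odd_pow (n : ℕ) (hn : Odd n) (g : GG) (hg : g ^ n = 1) :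
    ∃ k : KK, g = SemidirectProduct.inl k := by
  rcases SS_cases g.right with h | h
  · refine ⟨g.left, ?_⟩
    conv_lhs => rw [← SemidirectProduct.inl_left_mul_inr_right g, h, map_one, mul_one]
  · exfalso
    have h1 := congrArg SemidirectProduct.rightHom hg
    rw [map_pow, map_one, SemidirectProduct.rightHom_eq_right] at h1
    rw [h] at h1
    have h2 : sA ^ n = 1 := congrArg Subtype.val h1
    obtain ⟨j, rfl⟩ := hn
    rw [pow_add, pow_mul, sA_sq, one_pow, one_mul, pow_one] at h2
    exact sA_ne h2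

/-- an injective image of a factor is a conjugate of that factor -/
theorem factor_image (b : Bool) (g : GG) (hg : g ^ nn b = 1) (hne : g ≠ 1) :
    ∃ (c : KK) (m : MM b), m ≠ 1 ∧ g = SemidirectProduct.inl (c * CoprodI.of m * c⁻¹) := by
  have hodd : Odd (nn b) := by cases b <;> decide
  obtain ⟨k, rfl⟩ := odd_pow _ hodd g hg
  have hk : k ^ nn b = 1 := by
    apply SemidirectProduct.inl_injective (φ := SS.subtype)
    rw [map_pow, hg, map_one]
  have hk1 : k ≠ 1 := by
    rintro rfl
    exact hne (map_one _)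
  obtain ⟨c, i, m, hm⟩ := exists_conj_of_pow k (nn b) (nn_prime b).pos hk hk1
  have hm1 : m ≠ 1 := by
    rintro rfl
    apply hk1
    rw [hm]; simp
  by_cases hi : i = b
  · subst hi
    exact ⟨c, m, hm1, by rw [hm]⟩
  · exfalso
    have hi' : i = !b := by cases i <;> cases b <;> simp_all
    subst hi'
    apply hm1
    apply MM_other
    apply CoprodI.of_injective (M := MM) (!b)
    rw [map_pow, map_one]
    have : (c * CoprodI.of m * c⁻¹) ^ nn b = c * CoprodI.of m ^ nn b * c⁻¹ := conj_pow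
    rw [hm, this] at hk
    have h3 := congrArg (fun x => c⁻¹ * x * c) hk
    simpa [mul_assoc] using h3

theorem surj_of_conj (ψ : GG →* GG) (c : GG)
    (h : Function.Surjective ((MulAut.conj c).toMonoidHom.comp ψ)) : Function.Surjective ψ := by
  intro y
  obtain ⟨x, hx⟩ := h (c * y * c⁻¹)
  refine ⟨x, ?_⟩
  have h2 : c * ψ x * c⁻¹ = c * y * c⁻¹ := hx
  have h3 := congrArg (fun z => c⁻¹ * z * c) h2
  simpa [mul_assoc] using h3

theorem inl_gg_ne (b : Bool) : (SemidirectProduct.inl (CoprodI.of (gg b)) : GG) ≠ 1 := by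
  intro h
  rw [← map_one (SemidirectProduct.inl : KK →* GG)] at h
  have h2 := SemidirectProduct.inl_injective h
  rw [← map_one (CoprodI.of : MM b →* KK)] at h2
  exact gg_ne b (CoprodI.of_injective b h2)

theorem inl_gg_pow (b : Bool) : (SemidirectProduct.inl (CoprodI.of (gg b)) : GG) ^ nn b = 1 := by
  rw [← map_pow, ← map_pow, MM_pow, map_one, map_one]

theorem ss_conj_gg (b : Bool) (ψ : GG →* GG) :
    ψ ss * ψ (SemidirectProduct.inl (CoprodI.of (gg b))) * ψ ss =
      (ψ (SemidirectProduct.inl (CoprodI.of (gg b))))⁻¹ := by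
  rw [← map_mul, ← map_mul, ss_conj, sg_of, of_inv, map_inv, map_inv]

/-- last step -/
theorem surj3 (ψ : GG →* GG) (hψ : Function.Injective ψ) (m : MM false) (hm : m ≠ 1)
    (h1 : ψ (SemidirectProduct.inl (CoprodI.of (gg false))) = SemidirectProduct.inl (CoprodI.of m))
    (h2 : ψ ss = ss) : Function.Surjective ψ := by
  obtain ⟨h, m', hm', h3⟩ := factor_image true
    (ψ (SemidirectProduct.inl (CoprodI.of (gg true))))
    (by rw [← map_pow, inl_gg_pow, map_one]) (by
      intro h
      rw [← map_one ψ] at h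
      exact inl_gg_ne true (hψ h))
  have h4 := ss_conj_gg true ψ
  rw [h2, h3, ss_conj, ← map_inv] at h4
  have h5 := SemidirectProduct.inl_injective h4
  rw [map_mul, map_mul, sg_of, map_inv sg] at h5
  have h6 : (h⁻¹ * sg h) * CoprodI.of m'⁻¹ = CoprodI.of m'⁻¹ * (h⁻¹ * sg h) := by
    have e1 : sg h * CoprodI.of m'⁻¹ = (h * CoprodI.of m' * h⁻¹)⁻¹ * sg h := by
      rw [← h5]; group
    rw [mul_assoc, e1, map_inv]
    group
  obtain ⟨n, hn⟩ := mem_range_of_conj (h⁻¹ * sg h) true m'⁻¹ m'⁻¹ (by simpa using hm')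
    (by simpa using hm') h6
  obtain ⟨n', hn'⟩ := MM_half n
  have h7 : sg (h * CoprodI.of n') = h * CoprodI.of n' := by
    have e1 : sg h = h * CoprodI.of n := by rw [← hn]; group
    rw [map_mul, sg_of, e1, ← hn', map_mul, map_inv]
    group
  have h8 := sA_sg_fix _ h7
  have h9 : h * CoprodI.of m' * h⁻¹ = CoprodI.of m' := by
    have e1 : h = CoprodI.of n'⁻¹ := by
      rw [map_inv]; exact eq_inv_of_mul_eq_one_left h8
    rw [e1, ← map_inv, ← map_mul, ← map_mul]
    congr 1
    rw [mul_comm n'⁻¹ m', mul_assoc, mul_inv_cancel, mul_one]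
  rw [h9] at h3
  -- now the range contains everything
  have hK : ∀ k : KK, (SemidirectProduct.inl k : GG) ∈ ψ.range := by
    intro k
    induction k using CoprodI.induction_on with
    | one => rw [map_one]; exact one_mem _
    | of b x =>
      cases b
      · obtain ⟨j, hj⟩ := MM_gen m hm x
        rw [← hj, map_zpow, map_zpow]
        exact Subgroup.zpow_mem _ (MonoidHom.mem_range.2 ⟨_, h1⟩) j
      · obtain ⟨j, hj⟩ := MM_gen m' hm' x
        rw [← hj, map_zpow, map_zpow]
        exact Subgroup.zpow_mem _ (MonoidHom.mem_range.2 ⟨_, h3⟩) j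
    | mul x y hx hy => rw [map_mul]; exact mul_mem hx hy
  intro y
  have : y ∈ ψ.range := by
    rcases GG_cases y with ⟨k, rfl⟩ | ⟨k, rfl⟩
    · exact hK k
    · exact mul_mem (hK k) ⟨ss, h2⟩
  exact this

theorem surj2 (ψ : GG →* GG) (hψ : Function.Injective ψ) (m : MM false) (hm : m ≠ 1)
    (h1 : ψ (SemidirectProduct.inl (CoprodI.of (gg false))) =
      SemidirectProduct.inl (CoprodI.of m)) : Function.Surjective ψ := by
  have hs2 : ψ ss * ψ ss = 1 := by rw [← map_mul, ss_sq, map_one]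
  have hs1 : ψ ss ≠ 1 := by
    intro h
    rw [← map_one ψ] at h
    exact ss_ne (hψ h)
  rcases GG_cases (ψ ss) with ⟨k, hk⟩ | ⟨k, hk⟩
  · exfalso
    have hk2 : k ^ 2 = 1 := by
      apply SemidirectProduct.inl_injective (φ := SS.subtype)
      rw [map_pow, ← hk, pow_two, hs2, map_one]
    have hk1 : k ≠ 1 := by
      rintro rfl
      exact hs1 (by rw [hk, map_one])
    obtain ⟨c, i, x, hx⟩ := exists_conj_of_pow k 2 (by norm_num) hk2 hk1
    have : x = 1 := by
      apply MM_sq
      apply CoprodI.of_injective (M := MM) i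
      rw [map_pow, map_one]
      have e : (c * CoprodI.of x * c⁻¹) ^ 2 = c * CoprodI.of x ^ 2 * c⁻¹ := conj_pow
      rw [hx, e] at hk2
      have h3 := congrArg (fun x => c⁻¹ * x * c) hk2
      simpa [mul_assoc] using h3
    subst this
    apply hk1
    rw [hx]; simp
  · have h4 := ss_conj_gg false ψ
    have h5 : ψ ss = ss * SemidirectProduct.inl k⁻¹ := by
      have : ψ ss = (ψ ss)⁻¹ := by
        rw [eq_inv_iff_mul_eq_one]; exact hs2
      rw [this, hk, mul_inv_rev, ss_inv, ← map_inv]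
    rw [h1] at h4
    nth_rewrite 1 [hk] at h4
    rw [h5] at h4
    have h6 : (SemidirectProduct.inl (k * sg (CoprodI.of m) * k⁻¹) : GG) =
        SemidirectProduct.inl (CoprodI.of m⁻¹) := by
      rw [map_mul, map_mul, ← ss_conj, of_inv, map_inv SemidirectProduct.inl (CoprodI.of m), ← h4]
      group
    have h7 := SemidirectProduct.inl_injective h6
    rw [sg_of] at h7
    have h8 : k * CoprodI.of m⁻¹ = CoprodI.of m⁻¹ * k := by
      nth_rewrite 2 [← h7]; group
    obtain ⟨n, hn⟩ := mem_range_of_conj k false m⁻¹ m⁻¹ (by simpa using hm)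
      (by simpa using hm) (by rw [h8])
    obtain ⟨n', hn'⟩ := MM_half n
    refine surj_of_conj ψ (SemidirectProduct.inl (CoprodI.of n'⁻¹)) ?_
    refine surj3 _ ?_ m hm ?_ ?_
    · exact (MulAut.conj _).injective.comp hψ
    · change SemidirectProduct.inl (CoprodI.of n'⁻¹) * ψ _ *
        (SemidirectProduct.inl (CoprodI.of n'⁻¹))⁻¹ = _
      rw [h1, ← map_inv, ← map_inv, ← map_mul, ← map_mul, ← map_mul, ← map_mul]
      congr 2
      rw [mul_comm n'⁻¹ m, mul_assoc, mul_inv_cancel, mul_one]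
    · change SemidirectProduct.inl (CoprodI.of n'⁻¹) * ψ _ *
        (SemidirectProduct.inl (CoprodI.of n'⁻¹))⁻¹ = _
      rw [hk, hn, ← map_inv, ← map_inv, inv_inv]
      have e1 : ss * (SemidirectProduct.inl (CoprodI.of n') : GG) =
          SemidirectProduct.inl (CoprodI.of n'⁻¹) * ss := by
        rw [← sg_of, ← ss_conj, mul_assoc _ ss ss, ss_sq, mul_one]
      rw [mul_assoc, mul_assoc, e1, ← mul_assoc, ← mul_assoc, ← map_mul, ← map_mul, ← map_mul,
        ← map_mul, ← hn']
      have e2 : n'⁻¹ * (n' * n') * n'⁻¹ = 1 := by group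
      rw [e2, map_one, map_one, one_mul]

/-- Every injective endomorphism of `(C₃ * C₅) ⋊ C₂` is surjective. -/
theorem GG_coh (ψ : GG →* GG) (hψ : Function.Injective ψ) : Function.Surjective ψ := by
  obtain ⟨c, m, hm, h⟩ := factor_image false
    (ψ (SemidirectProduct.inl (CoprodI.of (gg false))))
    (by rw [← map_pow, inl_gg_pow, map_one]) (by
      intro h
      rw [← map_one ψ] at h
      exact inl_gg_ne false (hψ h))
  refine surj_of_conj ψ (SemidirectProduct.inl c⁻¹) ?_
  refine surj2 _ ?_ m hm ?_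
  · exact (MulAut.conj _).injective.comp hψ
  · change SemidirectProduct.inl c⁻¹ * ψ _ * (SemidirectProduct.inl c⁻¹)⁻¹ = _
    rw [h, ← map_inv, ← map_mul, ← map_mul]
    congr 1
    group

end Pool.Agent.H849R3
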