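import Mathlib
import Pool.Agent.H849R3.Q1

/-!
Finite presentability of `GG`, and non-co-hopficity of `C₃ * C₅`.
-/

namespace Pool.Agent.H849R3

open Monoid

/-- A free product of two finitely presented groups indexed by `Bool` is finitely presented. -/
theorem fp_coprodI (M : Bool → Type) [∀ b, Group (M b)] [∀ b, Group.IsFinitelyPresented (M b)] :
    Group.IsFinitelyPresented (CoprodI M) := by
  let f : Monoid.Coprod (M false) (M true) →* CoprodI M :=
    Monoid.Coprod.lift (CoprodI.of (i := false)) (CoprodI.of (i := true))
  let g : CoprodI M →* Monoid.Coprod (M false) (M true) :=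
    CoprodI.lift (fun b => match b with
      | false => Monoid.Coprod.inl
      | true => Monoid.Coprod.inr)
  have h1 : g.comp f = MonoidHom.id _ := by
    apply Monoid.Coprod.hom_ext
    · ext x; simp [f, g]
    · ext x; simp [f, g]
  have h2 : f.comp g = MonoidHom.id _ := by
    apply CoprodI.ext_hom
    intro b
    cases b
    · ext x; simp [f, g]
    · ext x; simp [f, g]
  exact Group.IsFinitelyPresented.equiv (MonoidHom.toMulEquiv f g h1 h2)

/-- A semidirect product of a finitely presented group with a finite group is finitely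
presented. -/
theorem fp_semidirect (N S : Type) [Group N] [Group S] [Finite S] (φ : S →* MulAut N)
    [hN : Group.IsFinitelyPresented N] : Group.IsFinitelyPresented (N ⋊[φ] S) := by
  obtain ⟨n, ρ, hρ, -⟩ := hN.out
  let f : Monoid.Coprod N S →* N ⋊[φ] S :=
    Monoid.Coprod.lift SemidirectProduct.inl SemidirectProduct.inr
  have hf : Function.Surjective f := by
    intro x
    refine ⟨Monoid.Coprod.inl x.left * Monoid.Coprod.inr x.right, ?_⟩
    simp [f]
  let r : Fin n × S → Monoid.Coprod N S := fun p =>
    Monoid.Coprod.inr p.2 * Monoid.Coprod.inl (ρ (FreeGroup.of p.1)) * (Monoid.Coprod.inr p.2)⁻¹ *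
      (Monoid.Coprod.inl (φ p.2 (ρ (FreeGroup.of p.1))))⁻¹
  refine Group.IsFinitelyPresented.of_surjective f hf ⟨Set.range r, Set.finite_range r, ?_⟩
  apply le_antisymm
  · apply Subgroup.normalClosure_le_normal
    rintro _ ⟨p, rfl⟩
    change f (r p) = 1
    simp only [r, map_mul, map_inv, f, Monoid.Coprod.lift_apply_inl, Monoid.Coprod.lift_apply_inr]
    rw [SemidirectProduct.inl_aut, ← map_inv]
    group
  · set W := Subgroup.normalClosure (Set.range r) with hW
    let q : Monoid.Coprod N S →* Monoid.Coprod N S ⧸ W := QuotientGroup.mk' W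
    have hrel : ∀ (s : S) (x : N), q (Monoid.Coprod.inr s) * q (Monoid.Coprod.inl x) *
        (q (Monoid.Coprod.inr s))⁻¹ = q (Monoid.Coprod.inl (φ s x)) := by
      intro s x
      obtain ⟨w, rfl⟩ := hρ x
      have : ((MulAut.conj (q (Monoid.Coprod.inr s))).toMonoidHom.comp
          ((q.comp Monoid.Coprod.inl).comp ρ)) =
          ((q.comp Monoid.Coprod.inl).comp (φ s).toMonoidHom).comp ρ := by
        apply FreeGroup.ext_hom
        intro a
        change q (Monoid.Coprod.inr s) * q (Monoid.Coprod.inl (ρ (FreeGroup.of a))) *
          (q (Monoid.Coprod.inr s))⁻¹ = q (Monoid.Coprod.inl (φ s (ρ (FreeGroup.of a))))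
        have h : r (a, s) ∈ W := Subgroup.subset_normalClosure ⟨(a, s), rfl⟩
        have h2 : q (r (a, s)) = 1 := (QuotientGroup.eq_one_iff _).2 h
        simp only [r, map_mul, map_inv] at h2
        exact mul_inv_eq_one.1 h2
      exact DFunLike.congr_fun this w
    let g : N ⋊[φ] S →* Monoid.Coprod N S ⧸ W :=
      SemidirectProduct.lift (q.comp Monoid.Coprod.inl) (q.comp Monoid.Coprod.inr) (by
        intro s
        ext x
        exact (hrel s x).symm)
    have hg : g.comp f = q := by
      apply Monoid.Coprod.hom_ext
      · ext x; simp [f, g]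
      · ext x; simp [f, g]
    intro x hx
    rw [MonoidHom.mem_ker] at hx
    have : q x = 1 := by rw [← hg, MonoidHom.comp_apply, hx, map_one]
    exact (QuotientGroup.eq_one_iff x).1 this

instance (b : Bool) : Group.IsFinitelyPresented (MM b) := inferInstance

theorem KK_fp : Group.IsFinitelyPresented KK := fp_coprodI MM

instance : Finite SS := Nat.finite_of_card_ne_zero (by rw [card_SS]; norm_num)

theorem GG_fp : Group.IsFinitelyPresented GG :=
  have := KK_fp
  fp_semidirect KK SS SS.subtype

/-- the subgroup `C₃ * C₅` of index two -/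
def HH : Subgroup GG := (SemidirectProduct.inl : KK →* GG).range

noncomputable def HHe : KK ≃* HH := MonoidHom.ofInjective SemidirectProduct.inl_injective

theorem HH_index : HH.index = 2 := by
  have h1 : HH = (SemidirectProduct.rightHom : GG →* SS).ker := by
    unfold HH
    exact SemidirectProduct.range_inl_eq_ker_rightHom
  rw [h1, Subgroup.index_ker, MonoidHom.range_eq_top.2 SemidirectProduct.rightHom_surjective]
  rw [Nat.card_congr Subgroup.topEquiv.toEquiv, card_SS]

theorem HH_fp : Group.IsFinitelyPresented HH :=
  have := KK_fp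
  Group.IsFinitelyPresented.equiv HHe

/-- the conjugating element `b a⁻¹` -/
def cg : KK := CoprodI.of (gg true) * (CoprodI.of (gg false))⁻¹

/-- the endomorphism `a ↦ a`, `b ↦ g b g⁻¹` -/
def rho : KK →* KK := CoprodI.lift (fun b => match b with
  | false => CoprodI.of (i := false)
  | true => (MulAut.conj cg).toMonoidHom.comp (CoprodI.of (i := true)))

end Pool.Agent.H849R3
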