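import Mathlib
import Pool.Agent.H849R3.Q1b

/-!
`C₃ * C₅` is not co-hopfian.
-/

namespace Pool.Agent.H849R3

open Monoid Pool.Agent.Helper509.RD.CP

/-- elements whose normal form begins in the factor `b` -/
def XX (b : Bool) : Set KK := {k | ∃ (x : MM b) (L : List (Σ i, MM i)), nf k = ⟨b, x⟩ :: L}

theorem red_cons {b : Bool} {x : MM b} {L : List (Σ i, MM i)} (hx : x ≠ 1) (hL : Red L)
    (h : ∀ y ∈ L.head?, b ≠ y.1) : Red ((⟨b, x⟩ : Σ i, MM i) :: L) := by
  refine ⟨?_, ?_⟩
  · intro s hs
    rcases List.mem_cons.1 hs with h | h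
    · subst h; exact hx
    · exact hL.1 s h
  · rw [List.isChain_cons]
    exact ⟨h, hL.2⟩

theorem nf_of_mul {b : Bool} {x : MM b} (hx : x ≠ 1) {k : KK}
    (h : ∀ y ∈ (nf k).head?, b ≠ y.1) : nf (CoprodI.of x * k) = ⟨b, x⟩ :: nf k := by
  have h1 : CoprodI.of x * k = prodL (⟨b, x⟩ :: nf k) := by
    rw [prodL_cons, prodL_nf]
  rw [h1]
  exact nf_prodL (red_cons hx (nf_red k) h)

theorem mul_mem_XX {b : Bool} {x : MM b} (hx : x ≠ 1) {k : KK} (hk : k ∈ XX (!b)) :
    CoprodI.of x * k ∈ XX b := by
  obtain ⟨y, L, hL⟩ := hk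
  refine ⟨x, nf k, nf_of_mul hx ?_⟩
  intro z hz
  rw [hL] at hz
  simp only [List.head?_cons, Option.mem_def, Option.some.injEq] at hz
  rw [← hz]
  cases b <;> simp

theorem rho_injective : Function.Injective rho := by
  unfold rho
  refine CoprodI.lift_injective_of_ping_pong _ ?_ XX ?_ ?_ ?_
  · right
    refine ⟨false, ?_⟩
    have h3 : Nat.card (MM false) = 3 := by simp [nn]
    have : Finite (MM false) := Nat.finite_of_card_ne_zero (by rw [h3]; norm_num)
    rw [← Nat.cast_card, h3]
    norm_num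
  · intro b
    refine ⟨CoprodI.of (gg b), gg b, [], ?_⟩
    exact nf_of (gg_ne b)
  · intro b b' hb
    rw [Function.onFun, Set.disjoint_left]
    rintro k ⟨x, L, hL⟩ ⟨y, L', hL'⟩
    rw [hL] at hL'
    have := congrArg Sigma.fst (List.cons.inj hL').1
    exact hb this
  · intro b b' hb h hne k hk
    obtain ⟨k, hk, rfl⟩ := hk
    cases b <;> cases b'
    · exact absurd rfl hb
    · exact mul_mem_XX hne hk
    · change cg * CoprodI.of h * cg⁻¹ * k ∈ XX true
      have e : cg * CoprodI.of h * cg⁻¹ * k = CoprodI.of (gg true) * (CoprodI.of (gg false)⁻¹ *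
          (CoprodI.of h * (CoprodI.of (gg false) * (CoprodI.of (gg true)⁻¹ * k)))) := by
        unfold cg
        rw [of_inv, of_inv]
        group
      rw [e]
      exact mul_mem_XX (gg_ne _) (mul_mem_XX (b := false) (inv_ne_one.2 (gg_ne _))
        (mul_mem_XX (b := true) hne (mul_mem_XX (b := false) (gg_ne _)
          (mul_mem_XX (b := true) (inv_ne_one.2 (gg_ne _)) hk))))
    · exact absurd rfl hb

/-- a homomorphism from a factor given by an element of the right order -/
def facHom {P : Type} [Group P] {b : Bool} (p : P) (hp : p ^ nn b = 1) : MM b →* P :=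
  MonoidHom.mk' (fun x => p ^ (Multiplicative.toAdd x).val) (by
    intro x y
    rw [toAdd_mul, ZMod.val_add, ← pow_add, ← pow_eq_pow_mod _ hp])

def pa : Equiv.Perm (Fin 7) := Equiv.swap 0 1 * Equiv.swap 1 2

def pb : Equiv.Perm (Fin 7) := Equiv.swap 2 3 * Equiv.swap 3 4 * Equiv.swap 4 5 * Equiv.swap 5 6

theorem pa_pow : pa ^ nn false = 1 := by
  change pa ^ 3 = 1
  decide

theorem pb_pow : pb ^ nn true = 1 := by
  change pb ^ 5 = 1
  decide

/-- an action on seven points -/
def pp : KK →* Equiv.Perm (Fin 7) := CoprodI.lift (fun b => match b with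
  | false => facHom pa pa_pow
  | true => facHom pb pb_pow)

theorem pp_false (x : MM false) : pp (CoprodI.of x) = pa ^ (Multiplicative.toAdd x).val := by
  unfold pp
  rw [CoprodI.lift_of]
  rfl

theorem pp_true (x : MM true) : pp (CoprodI.of x) = pb ^ (Multiplicative.toAdd x).val := by
  unfold pp
  rw [CoprodI.lift_of]
  rfl

theorem pp_cg : pp cg 0 = 3 := by
  unfold cg
  rw [map_mul, map_inv, pp_false, pp_true]
  decide

theorem rho_fix (x : KK) : pp (rho x) 3 = 3 := by
  induction x using CoprodI.induction_on with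
  | one => simp
  | of b m =>
    cases b
    · have : rho (CoprodI.of m) = CoprodI.of m := by
        unfold rho
        rw [CoprodI.lift_of]
      rw [this, pp_false]
      exact Equiv.Perm.pow_apply_eq_self_of_apply_eq_self (by decide) _
    · have : rho (CoprodI.of m) = cg * CoprodI.of m * cg⁻¹ := by
        unfold rho
        rw [CoprodI.lift_of]
        rfl
      rw [this, map_mul, map_mul, map_inv, Equiv.Perm.mul_apply, Equiv.Perm.mul_apply]
      have h0 : (pp cg)⁻¹ 3 = 0 := by
        rw [Equiv.Perm.inv_eq_iff_eq]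
        exact pp_cg.symm
      have h1 : pp (CoprodI.of m) 0 = 0 := by
        rw [pp_true]
        exact Equiv.Perm.pow_apply_eq_self_of_apply_eq_self (by decide) _
      rw [h0, h1, pp_cg]
  | mul x y hx hy => rw [map_mul, map_mul, Equiv.Perm.mul_apply, hy, hx]

theorem rho_not_surjective : ¬ Function.Surjective rho := by
  intro h
  obtain ⟨x, hx⟩ := h (CoprodI.of (gg true))
  have h1 := rho_fix x
  rw [hx, pp_true] at h1
  revert h1
  decide

end Pool.Agent.H849R3
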